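import Pool.Agent.N638.ET.Coef

/-!
# Cubes: the algebraic multipliers
-/

set_option autoImplicit false

namespace Pool.Agent.N638.ET

open Module Finset Polynomial
open Pool.Agent.W254.Ab (QA mem_QA)
open Pool.Agent.W254.PA (Hyp)
open Pool.Agent.TH160.TowP

variable {Ω : Type} [Field Ω] [CharZero Ω] {V : Submodule (QA Ω) Ω}

/-- one polynomial -/
theorem base {ι : Type} [DecidableEq ι] (l : ι → Ω) {Y0 : Ω} (hY : IsAlgebraic ℚ Y0) (D : ℕ) :
    ∀ (J : Finset ι) (P : Polynomial Ω), Z D P → D ≤ J.card → (∀ i ∈ J, IsAlgebraic ℚ (l i)) →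
    (∀ i ∈ J, l i ≠ 0) → (∀ T ⊆ J, P.eval (Y0 + ∑ i ∈ T, l i) ∈ V) → ∀ m, P.coeff m ∈ V := by
  induction D with
  | zero =>
    intro J P hP _ _ _ _ m
    rw [Z_zero hP, coeff_zero]
    exact V.zero_mem
  | succ D ih =>
    intro J P hP hJ hla hl0 h
    obtain ⟨i, hi⟩ : J.Nonempty := Finset.card_pos.mp (by omega)
    have h1 := ih (J.erase i) (kop 1 1 (l i) P) (kop_Z' hP 1 (l i))
      (by rw [Finset.card_erase_of_mem hi]; omega)
      (fun j hj => hla j (Finset.mem_of_mem_erase hj))
      (fun j hj => hl0 j (Finset.mem_of_mem_erase hj)) (by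
        intro T hT
        have hiT : i ∉ T := fun hh => (Finset.mem_erase.mp (hT hh)).1 rfl
        have h1 := h (insert i T) (by
          intro x hx
          rcases Finset.mem_insert.mp hx with rfl | hx
          · exact hi
          · exact Finset.mem_of_mem_erase (hT hx))
        have h2 := h T (fun x hx => Finset.mem_of_mem_erase (hT hx))
        rw [kop_eval, one_mul, one_mul]
        rw [Finset.sum_insert hiT] at h1
        have e : Y0 + ∑ i ∈ T, l i + l i = Y0 + (l i + ∑ i ∈ T, l i) := by ring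
        rw [e]
        exact V.sub_mem h1 h2)
    have h2 := coeff_of_diff (hla i hi) (hl0 i hi) h1
    have h3 := h ∅ (by simp)
    rw [Finset.sum_empty, add_zero, eval_eq_sum_range, Finset.sum_range_succ'] at h3
    have h4 : ∑ k ∈ Finset.range P.natDegree, P.coeff (k + 1) * Y0 ^ (k + 1) ∈ V := by
      apply V.sum_mem
      intro k _
      rw [mul_comm]
      exact V_mul (hY.pow _) (h2 _ (by omega))
    have h5 := V.sub_mem h3 h4
    rw [add_sub_cancel_left, pow_zero, mul_one] at h5
    intro m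
    rcases Nat.eq_zero_or_pos m with hm | hm
    · rw [hm]; exact h5
    · exact h2 m hm

/-- several polynomials -/
theorem part2Z {ι κ : Type} [DecidableEq ι] [Fintype κ] [DecidableEq κ] (l : ι → Ω) (Ψ : κ → Ω)
    (ρ : κ → ι → Ω) (Y0 : Ω) (j0 : κ) (D : ℕ) (hΨ : IsAlgebraic ℚ (Ψ j0)) (hΨ0 : Ψ j0 ≠ 0)
    (hY : IsAlgebraic ℚ Y0) (n : ℕ) : ∀ (J : Finset ι) (d : κ → ℕ) (P : κ → Polynomial Ω),
    ∑ j ∈ Finset.univ.erase j0, d j = n → (∀ j, j ≠ j0 → Z (d j) (P j)) → Z D (P j0) →
    D + n ≤ J.card → (∀ i ∈ J, IsAlgebraic ℚ (l i)) → (∀ i ∈ J, l i ≠ 0) →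
    (∀ j, ∀ i ∈ J, IsAlgebraic ℚ (ρ j i)) → (∀ i ∈ J, ρ j0 i ≠ 0) →
    (∀ j, j ≠ j0 → ∀ i ∈ J, ρ j0 i ≠ ρ j i) →
    (∀ T ⊆ J, E Ψ ρ l Y0 P T ∈ V) → ∀ m, (P j0).coeff m ∈ V := by
  classical
  induction n with
  | zero =>
    intro J d P hd hP hPD hJ hla hl hρ hρ0 hρne h
    refine base l hY D J (P j0) hPD (by omega) hla hl (fun T hT => ?_)
    have h1 := h T hT
    have hE : E Ψ ρ l Y0 P T =
        (Ψ j0 * ∏ i ∈ T, ρ j0 i) * (P j0).eval (Y0 + ∑ i ∈ T, l i) := by
      unfold E
      have hz : ∑ j ∈ Finset.univ.erase j0,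
          Ψ j * (∏ i ∈ T, ρ j i) * (P j).eval (Y0 + ∑ i ∈ T, l i) = 0 := by
        apply Finset.sum_eq_zero
        intro j hj
        have hj' := Finset.ne_of_mem_erase hj
        have hdj : d j = 0 := (Finset.sum_eq_zero_iff.mp hd) j hj
        have : P j = 0 := Z_zero (by rw [← hdj]; exact hP j hj')
        rw [this, eval_zero, mul_zero]
      rw [← Finset.add_sum_erase _ _ (Finset.mem_univ j0), hz, add_zero]
    rw [hE] at h1
    refine mul_mem_iff ?_ ?_ h1
    · refine hΨ.mul ?_
      have : ∀ S : Finset ι, S ⊆ J → IsAlgebraic ℚ (∏ i ∈ S, ρ j0 i) := by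
        intro S
        induction S using Finset.induction_on with
        | empty => intro _; rw [Finset.prod_empty]; exact isAlgebraic_one
        | insert a S ha ihS =>
          intro hS
          rw [Finset.prod_insert ha]
          exact (hρ j0 a (hS (Finset.mem_insert_self a S))).mul
            (ihS (fun x hx => hS (Finset.mem_insert_of_mem hx)))
      exact this T hT
    · exact mul_ne_zero hΨ0 (Finset.prod_ne_zero_iff.mpr fun i hi => hρ0 i (hT hi))
  | succ n ih =>
    intro J d P hd hP hPD hJ hla hl hρ hρ0 hρne h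
    obtain ⟨j1, hj1, hdj1⟩ : ∃ j1, j1 ≠ j0 ∧ d j1 ≠ 0 := by
      by_contra hcon
      push Not at hcon
      rw [Finset.sum_eq_zero (fun j hj => hcon j (Finset.ne_of_mem_erase hj))] at hd
      omega
    obtain ⟨i, hi⟩ : J.Nonempty := Finset.card_pos.mp (by omega)
    have key := ih (J.erase i) (Function.update d j1 (d j1 - 1))
      (fun j => kop (ρ j i) (ρ j1 i) (l i) (P j)) ?_ ?_ ?_ ?_
      (fun k hk => hla k (Finset.mem_of_mem_erase hk))
      (fun k hk => hl k (Finset.mem_of_mem_erase hk))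
      (fun j k hk => hρ j k (Finset.mem_of_mem_erase hk))
      (fun k hk => hρ0 k (Finset.mem_of_mem_erase hk))
      (fun j hj k hk => hρne j hj k (Finset.mem_of_mem_erase hk)) ?_
    · exact coeff_of_kop (hρ j0 i hi) (hρ j1 i hi) (hρne j1 hj1 i hi) (hla i hi) key
    · have hm : j1 ∈ Finset.univ.erase j0 := Finset.mem_erase.mpr ⟨hj1, Finset.mem_univ _⟩
      rw [Finset.sum_update_of_mem hm, Finset.sdiff_singleton_eq_erase]
      have h2 := Finset.add_sum_erase (Finset.univ.erase j0) d hm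
      omega
    · intro j hj
      by_cases hjj : j = j1
      · subst hjj
        rw [Function.update_self]
        refine kop_Z' ?_ _ _
        rw [Nat.sub_add_cancel (Nat.pos_of_ne_zero hdj1)]
        exact hP j hj
      · rw [Function.update_of_ne hjj]
        exact kop_Z (hP j hj) _ _ _
    · exact kop_Z hPD _ _ _
    · rw [Finset.card_erase_of_mem hi]
      omega
    · intro T hT
      have hiT : i ∉ T := fun hh => (Finset.mem_erase.mp (hT hh)).1 rfl
      have h1 := h (insert i T) (by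
        intro x hx
        rcases Finset.mem_insert.mp hx with rfl | hx
        · exact hi
        · exact Finset.mem_of_mem_erase (hT hx))
      have h2 := h T (fun x hx => Finset.mem_of_mem_erase (hT hx))
      rw [← E_kop Ψ ρ l Y0 P T i hiT (ρ j1 i)]
      exact V.sub_mem h1 (V_mul (hρ j1 i hi) h2)

end Pool.Agent.N638.ET
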