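import Mathlib

/-!
# Hilbert cubes in dense subsets of sets with small difference sets
-/

set_option autoImplicit false

namespace Pool.Agent.N638.ET

open Finset
open scoped Pointwise

variable {G : Type*} [AddCommGroup G] [DecidableEq G]

/-- pigeonhole for differences -/
theorem diff_stepG (A S : Finset G) (hS : S ⊆ A) (h2 : 2 ≤ S.card) :
    ∃ h : G, h ≠ 0 ∧ S.card ^ 2 ≤ 2 * (A - A).card * (S.filter fun s => s + h ∈ S).card := by
  by_contra hcon
  push Not at hcon
  have h0 : (0 : G) ∈ A - A := by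
    obtain ⟨s, hs⟩ : S.Nonempty := Finset.card_pos.mp (by omega)
    have := Finset.sub_mem_sub (hS hs) (hS hs)
    rwa [sub_self] at this
  have hmap : ∀ p ∈ S.offDiag, p.2 - p.1 ∈ (A - A).erase 0 := by
    intro p hp
    rw [Finset.mem_offDiag] at hp
    obtain ⟨ha, hb, hne⟩ := hp
    rw [Finset.mem_erase]
    exact ⟨fun h => hne (sub_eq_zero.mp h).symm, Finset.sub_mem_sub (hS hb) (hS ha)⟩
  have h3 := Finset.card_eq_sum_card_fiberwise (f := fun p : G × G => p.2 - p.1) hmap
  have h4 : ∀ h ∈ (A - A).erase 0, (S.offDiag.filter fun p => p.2 - p.1 = h).card ≤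
      (S.filter fun s => s + h ∈ S).card := by
    intro h _
    refine Finset.card_le_card_of_injOn (fun p => p.1) ?_ ?_
    · intro p hp
      rw [Finset.mem_coe, Finset.mem_filter, Finset.mem_offDiag] at hp
      obtain ⟨⟨ha, hb, _⟩, hd⟩ := hp
      rw [Finset.mem_coe, Finset.mem_filter]
      refine ⟨ha, ?_⟩
      rw [← hd, add_sub_cancel]
      exact hb
    · intro p hp q hq hpq
      rw [Finset.mem_coe, Finset.mem_filter] at hp hq
      have h5 : p.2 = q.2 := by
        have e1 := hp.2
        have e2 := hq.2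
        simp only at hpq
        rw [sub_eq_iff_eq_add] at e1 e2
        rw [e1, e2, hpq]
      exact Prod.ext hpq h5
  have hK : 0 < (A - A).card := Finset.card_pos.mpr ⟨0, h0⟩
  have h5 : 2 * (A - A).card * S.offDiag.card ≤ ((A - A).card - 1) * S.card ^ 2 := by
    rw [h3, Finset.mul_sum]
    calc ∑ h ∈ (A - A).erase 0, 2 * (A - A).card * (S.offDiag.filter fun p => p.2 - p.1 = h).card
        ≤ ∑ _h ∈ (A - A).erase 0, S.card ^ 2 := by
          apply Finset.sum_le_sum
          intro h hh
          have h6 := h4 h hh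
          have h7 := hcon h (Finset.ne_of_mem_erase hh)
          exact (Nat.mul_le_mul_left _ h6).trans h7.le
      _ = ((A - A).card - 1) * S.card ^ 2 := by
          rw [Finset.sum_const, Finset.card_erase_of_mem h0, smul_eq_mul]
  rw [Finset.offDiag_card] at h5
  obtain ⟨n, hn⟩ : ∃ n, (A - A).card = n + 1 := ⟨(A - A).card - 1, by omega⟩
  obtain ⟨c, hc⟩ : ∃ c, S.card = c + 2 := ⟨S.card - 2, by omega⟩
  rw [hc, hn] at h5
  have e1 : (c + 2) * (c + 2) - (c + 2) = (c + 2) * (c + 1) := by
    rw [Nat.sub_eq_iff_eq_add (by nlinarith)]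
    ring
  rw [e1, Nat.add_sub_cancel] at h5
  have h6 : n * (c + 2) ^ 2 + n * (c + 2) * c = 2 * n * ((c + 2) * (c + 1)) := by ring
  have h7 : 2 * (n + 1) * ((c + 2) * (c + 1)) =
      2 * n * ((c + 2) * (c + 1)) + 2 * ((c + 2) * (c + 1)) := by ring
  have h8 : 0 < (c + 2) * (c + 1) := by positivity
  have h9 : 0 ≤ n * (c + 2) * c := Nat.zero_le _
  linarith

/-- **Hilbert cubes.** -/
theorem hilbert_cubeG : ∀ (d : ℕ) (A S : Finset G), S ⊆ A →
    (2 * (A - A).card) ^ (2 ^ d - 1) < S.card ^ (2 ^ d) →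
    ∃ (k0 : G) (h : Fin d → G), (∀ i, h i ≠ 0) ∧
      ∀ T : Finset (Fin d), k0 + ∑ i ∈ T, h i ∈ S := by
  intro d
  induction d with
  | zero =>
    intro A S _ h
    rw [pow_zero, Nat.sub_self, pow_zero, pow_one] at h
    obtain ⟨s, hs⟩ : S.Nonempty := Finset.card_pos.mp (by omega)
    refine ⟨s, fun i => i.elim0, fun i => i.elim0, fun T => ?_⟩
    rw [Finset.eq_empty_of_isEmpty T, Finset.sum_empty, add_zero]
    exact hs
  | succ d ih =>
    intro A S hS h
    have hSne : S.Nonempty := by
      rw [Finset.nonempty_iff_ne_empty]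
      intro h0
      rw [h0, Finset.card_empty, zero_pow (by positivity)] at h
      exact absurd h (Nat.not_lt_zero _)
    have hK : 0 < (A - A).card := by
      obtain ⟨s, hs⟩ := hSne
      exact Finset.card_pos.mpr ⟨s - s, Finset.sub_mem_sub (hS hs) (hS hs)⟩
    have h2 : 2 ≤ S.card := by
      by_contra hlt
      have h1 : S.card ^ (2 ^ (d + 1)) ≤ 1 := Nat.pow_le_one_iff (by positivity) |>.mpr (by omega)
      have h3 : 0 < (2 * (A - A).card) ^ (2 ^ (d + 1) - 1) := by positivity
      omega
    obtain ⟨g, hg0, hg⟩ := diff_stepG A S hS h2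
    set S' := S.filter fun s => s + g ∈ S with hS'
    have hkey : (2 * (A - A).card) ^ (2 ^ d - 1) < S'.card ^ (2 ^ d) := by
      have e1 : 2 ^ (d + 1) - 1 = 2 ^ d + (2 ^ d - 1) := by
        have : 0 < 2 ^ d := by positivity
        rw [pow_succ]
        omega
      have e2 : S.card ^ (2 ^ (d + 1)) = (S.card ^ 2) ^ (2 ^ d) := by
        rw [← pow_mul, pow_succ]
        congr 1
        ring
      rw [e1, pow_add, e2] at h
      have h3 : (S.card ^ 2) ^ (2 ^ d) ≤ (2 * (A - A).card) ^ (2 ^ d) * S'.card ^ (2 ^ d) := by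
        rw [← mul_pow]
        exact Nat.pow_le_pow_left hg _
      exact Nat.lt_of_mul_lt_mul_left (h.trans_le h3)
    obtain ⟨k0, h', hh', hT⟩ := ih A S' ((Finset.filter_subset _ _).trans hS) hkey
    refine ⟨k0, Fin.cons g h', ?_, ?_⟩
    · intro i
      refine Fin.cases ?_ (fun j => ?_) i
      · rw [Fin.cons_zero]; exact hg0
      · rw [Fin.cons_succ]; exact hh' j
    · intro T
      have h3 := hT (Finset.univ.filter fun i => Fin.succ i ∈ T)
      rw [hS', Finset.mem_filter] at h3
      have e : ∑ i ∈ T, (Fin.cons g h' : Fin (d + 1) → G) i =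
          (if (0 : Fin (d + 1)) ∈ T then g else 0) +
            ∑ i ∈ Finset.univ.filter (fun i => Fin.succ i ∈ T), h' i := by
        rw [Finset.sum_filter (p := fun i : Fin d => Fin.succ i ∈ T)]
        have : ∑ i ∈ T, (Fin.cons g h' : Fin (d + 1) → G) i =
            ∑ i : Fin (d + 1), if i ∈ T then (Fin.cons g h' : Fin (d + 1) → G) i else 0 := by
          rw [← Finset.sum_filter]
          congr 1
          ext i
          simp
        rw [this, Fin.sum_univ_succ]
        simp only [Fin.cons_zero, Fin.cons_succ]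
      rw [e]
      split_ifs
      · have := h3.2
        rwa [add_assoc, add_comm _ g] at this
      · rw [zero_add]
        exact h3.1

end Pool.Agent.N638.ET
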