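import Pool.Agent.N638.ET.Cplx
import Pool.Agent.N638.ET.HilbertG
import Pool.Agent.H340R2.LW

/-!
# Exponential polynomials with algebraic frequencies at algebraic points
-/

set_option autoImplicit false

namespace Pool.Agent.N638.ET

open Module Finset Polynomial
open scoped Pointwise
open Pool.Agent.W254.Ab (QA mem_QA)
open Pool.Agent.W254.PA (Hyp)
open Pool.Agent.TH160.TowP
open Pool.Agent.H340R2.LW (transcendental_cexp lindemann_weierstrass)

variable {V : Submodule (QA ℂ) ℂ}

theorem exp_add_sum {ι : Type} (x k0 : ℂ) (h : ι → ℂ) (T : Finset ι) :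
    Complex.exp (x * (k0 + ∑ i ∈ T, h i)) =
      Complex.exp (x * k0) * ∏ i ∈ T, Complex.exp (x * h i) := by
  rw [mul_add, Complex.exp_add, Finset.mul_sum, Complex.exp_sum]

theorem sum_alg {ι : Type} (h : ι → ℂ) (hh : ∀ i, IsAlgebraic ℚ (h i)) (T : Finset ι) :
    IsAlgebraic ℚ (∑ i ∈ T, h i) := by
  classical
  induction T using Finset.induction_on with
  | empty => rw [Finset.sum_empty]; exact isAlgebraic_zero
  | insert a s ha ih =>
    rw [Finset.sum_insert ha]
    exact (hh a).add ih

theorem cubeE (hV : Hyp V) {m : ℕ} (D : ℕ) (lam : Fin m → ℂ) (hla : ∀ i, IsAlgebraic ℚ (lam i))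
    (hinj : Function.Injective lam) (B : Fin m → ℂ[X])
    (hB : ∀ i, Z D (B i)) {d : ℕ} (hd : NN m D + m * D + D ≤ d) (k0 : ℂ)
    (hk0 : IsAlgebraic ℚ k0) (h : Fin d → ℂ) (hh : ∀ i, h i ≠ 0) (hha : ∀ i, IsAlgebraic ℚ (h i))
    (hval : ∀ T : Finset (Fin d), GG lam B (k0 + ∑ i ∈ T, h i) ∈ V) :
    ∀ i, (lam i = 0 → ∀ n, (B i).coeff n ∈ V) ∧ (lam i ≠ 0 → B i = 0) := by
  classical
  set al : Fin m → Prop := fun i => lam i = 0 with hal
  set t : Fin m → Fin d → ℂ := fun k i => Complex.exp (lam k * h i) with ht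
  set χ0 : Fin m → ℂ := fun k => Complex.exp (lam k * k0) with hχ0
  have hχ0' : ∀ k, χ0 k ≠ 0 := fun k => Complex.exp_ne_zero _
  have htr : ∀ k, ¬ al k → ∀ i, Transcendental ℚ (t k i) := fun k hk i =>
    transcendental_cexp _ ((hla k).mul (hha i)) (mul_ne_zero hk (hh i))
  have htne : ∀ k k', k ≠ k' → ∀ i, t k i ≠ t k' i := by
    intro k k' hk i hcon
    have h1 : Complex.exp ((lam k - lam k') * h i) = 1 := by
      rw [sub_mul, Complex.exp_sub]
      rw [div_eq_one_iff_eq (Complex.exp_ne_zero _)]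
      exact hcon
    refine transcendental_cexp ((lam k - lam k') * h i) (((hla k).sub (hla k')).mul (hha i))
      (mul_ne_zero (sub_ne_zero.mpr (fun h2 => hk (hinj h2))) (hh i)) ?_
    rw [h1]
    exact isAlgebraic_one
  have hta : ∀ k, al k → ∀ i, IsAlgebraic ℚ (t k i) := by
    intro k hk i
    have hk' : lam k = 0 := hk
    simp only [ht, hk', zero_mul, Complex.exp_zero]
    exact isAlgebraic_one
  have ht0 : ∀ k i, t k i ≠ 0 := fun k i => Complex.exp_ne_zero _
  have hχa : ∀ k, al k → IsAlgebraic ℚ (χ0 k) := by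
    intro k hk
    have hk' : lam k = 0 := hk
    simp only [hχ0, hk', zero_mul, Complex.exp_zero]
    exact isAlgebraic_one
  have hv : ∀ T : Finset (Fin d),
      E (fun k : {k // ¬ al k} => χ0 k) (fun (k : {k // ¬ al k}) i => t k i) h k0
        (fun k => B k) T +
      E (fun k : {k // al k} => χ0 k) (fun (k : {k // al k}) i => t k i) h k0
        (fun k => B k) T ∈ V := by
    intro T
    have h1 := hval T
    unfold GG at h1
    have e2 : ∀ k, Complex.exp (lam k * (k0 + ∑ i ∈ T, h i)) = χ0 k * ∏ i ∈ T, t k i :=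
      fun k => exp_add_sum (lam k) k0 h T
    simp only [e2] at h1
    rw [← Fintype.sum_subtype_add_sum_subtype al] at h1
    unfold E
    rw [add_comm]
    exact h1
  have hcard : ∀ (P : Fin m → Prop) [Fintype {k // P k}], Fintype.card {k // P k} ≤ m := by
    intro P _
    have := Fintype.card_le_of_injective (Subtype.val : {k // P k} → Fin m) Subtype.val_injective
    rwa [Fintype.card_fin] at this
  have hG : (Finset.univ : Finset (Fin d)).card = d := by rw [Finset.card_univ, Fintype.card_fin]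
  have hmain : ∀ i, ¬ al i → B i = 0 := by
    intro i hi
    refine part1G hV (fun (k : {k // ¬ al k}) i => t k i) h (fun k : {k // ¬ al k} => χ0 k) k0 D
      (fun k : {k // al k} => χ0 k) (fun (k : {k // al k}) i => t k i)
      (∑ _j : {k // al k}, D) Finset.univ (fun _ => D) (fun k => B k) (fun k => B k) rfl
      (fun j => hB j)
      (fun j => hB j) ?_ (fun k i _ => htr k k.2 i)
      (fun k k' hk i _ => htne k k' (fun hh => hk (Subtype.ext hh)) i) (fun i _ => hh i)
      (fun k => hχ0' k)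
      (fun k i _ => hta k k.2 i) (fun T _ => hv T) ⟨i, hi⟩
    have h1 : ∑ _j : {k // al k}, D ≤ m * D := by
      rw [Finset.sum_const, smul_eq_mul, Finset.card_univ]
      exact Nat.mul_le_mul_right _ (hcard al)
    rw [hG]
    refine le_trans (Nat.add_le_add (NN_mono (hcard _)) h1) ?_
    omega
  intro j0
  refine ⟨fun hj0a => ?_, hmain j0⟩
  refine part2Z h (fun k : {k // al k} => χ0 k) (fun (k : {k // al k}) i => t k i) k0
    ⟨j0, hj0a⟩ D (hχa j0 hj0a) (hχ0' j0) hk0
    (∑ j ∈ (Finset.univ : Finset {k // al k}).erase ⟨j0, hj0a⟩, D) Finset.univ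
    (fun _ => D) (fun k => B k) rfl (fun j _ => hB j) (hB j0) ?_ (fun i _ => hha i)
    (fun i _ => hh i)
    (fun k i _ => hta k k.2 i) (fun i _ => ht0 j0 i) ?_ ?_
  · have h1 : ∑ j ∈ (Finset.univ : Finset {k // al k}).erase ⟨j0, hj0a⟩, D ≤ m * D := by
      rw [Finset.sum_const, smul_eq_mul]
      apply Nat.mul_le_mul_right
      refine (Finset.card_le_card (Finset.erase_subset _ _)).trans ?_
      rw [Finset.card_univ]
      exact hcard al
    rw [hG]
    omega
  · intro j hj i _
    exact htne j0 j (fun hh => hj (Subtype.ext hh.symm)) i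
  · intro T _
    have h1 := hv T
    have h2 : E (fun k : {k // ¬ al k} => χ0 k) (fun (k : {k // ¬ al k}) i => t k i) h k0
        (fun k => B k) T = 0 := by
      unfold E
      apply Finset.sum_eq_zero
      intro k _
      simp only [hmain k k.2, eval_zero, mul_zero]
    rw [h2, zero_add] at h1
    exact h1

open Classical in
/-- **The counting theorem at algebraic points.** -/
theorem countE (hV : Hyp V) (m D : ℕ) : ∃ δ : ℝ, 0 < δ ∧
    ∀ lam : Fin m → ℂ, (∀ i, IsAlgebraic ℚ (lam i)) → Function.Injective lam →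
    ∀ B : Fin m → ℂ[X], (∀ i, Z D (B i)) →
    ¬ (∀ i, (lam i = 0 → ∀ n, (B i).coeff n ∈ V) ∧ (lam i ≠ 0 → B i = 0)) →
    ∀ A : Finset ℂ, (∀ β ∈ A, IsAlgebraic ℚ β) →
      ((A.filter fun β => GG lam B β ∈ V).card : ℝ) ≤ (2 * (A - A).card : ℝ) ^ (1 - δ) := by
  set d : ℕ := NN m D + m * D + D with hd
  refine ⟨1 / 2 ^ d, by positivity, ?_⟩
  intro lam hla hinj B hB hnt A hA
  by_contra hcon
  push Not at hcon
  set S := A.filter fun β => GG lam B β ∈ V with hS
  have h4N : (0 : ℝ) ≤ 2 * (A - A).card := by positivity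
  have h1 : (2 * (A - A).card) ^ (2 ^ d - 1) < S.card ^ (2 ^ d) := by
    have h2 : ((2 * (A - A).card : ℝ) ^ (1 - 1 / (2 : ℝ) ^ d)) ^ (2 ^ d) <
        (S.card : ℝ) ^ (2 ^ d) :=
      pow_lt_pow_left₀ hcon (by positivity) (by positivity)
    rw [← Real.rpow_natCast, ← Real.rpow_mul h4N] at h2
    have h3 : (1 - 1 / (2 : ℝ) ^ d) * ((2 ^ d : ℕ) : ℝ) = ((2 ^ d - 1 : ℕ) : ℝ) := by
      rw [Nat.cast_sub (Nat.one_le_two_pow), Nat.cast_pow]
      push_cast
      field_simp
    rw [h3, Real.rpow_natCast] at h2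
    exact_mod_cast h2
  obtain ⟨k0, h, hh, hT⟩ := hilbert_cubeG d A S (Finset.filter_subset _ _) h1
  have hSA : ∀ x ∈ S, IsAlgebraic ℚ x := fun x hx => hA x (Finset.mem_filter.mp hx).1
  have hk0 : IsAlgebraic ℚ k0 := by
    have := hSA _ (hT ∅)
    rwa [Finset.sum_empty, add_zero] at this
  have hha : ∀ i, IsAlgebraic ℚ (h i) := by
    intro i
    have h2 := hSA _ (hT {i})
    rw [Finset.sum_singleton] at h2
    have h3 := h2.sub hk0
    rwa [add_sub_cancel_left] at h3
  exact hnt (cubeE hV D lam hla hinj B hB (d := d) le_rfl k0 hk0 h hh hha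
    (fun T => (Finset.mem_filter.mp (hT T)).2))

/-- exponentials of distinct algebraic numbers -/
theorem exp_indep {n : ℕ} (b : Fin n → ℂ) (hb : Function.Injective b)
    (hba : ∀ i, IsAlgebraic ℚ (b i)) :
    LinearIndependent (QA ℂ) fun j => Complex.exp (b j) := by
  rw [Fintype.linearIndependent_iff]
  intro g hg j
  have h1 := lindemann_weierstrass (Finset.univ : Finset (Fin n)) b (fun i => (g i : ℂ))
    (fun i _ => hba i) (fun i _ => mem_QA.mp (g i).2) (fun i _ j _ h => hb h) (by
      rw [← hg]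
      apply Finset.sum_congr rfl
      intro i _
      rw [Algebra.smul_def]
      rfl) j (Finset.mem_univ _)
  exact Subtype.ext h1

theorem grid_falseE (hV : Hyp V) {v lam : ℂ} (hv : v ≠ 0) (hlam : lam ≠ 0)
    (hla : IsAlgebraic ℚ lam) (h : ℂ) (hh : h ≠ 0) (hha : IsAlgebraic ℚ h) (b : Fin 3 → ℂ)
    (hb : Function.Injective b) (hba : ∀ j, IsAlgebraic ℚ (b j))
    (h1 : ∀ j, v * Complex.exp (lam * b j) ∈ V)
    (h2 : ∀ j, v * Complex.exp (lam * (b j + h)) ∈ V) : False := by
  have hx : LinearIndependent (QA ℂ) ![Complex.exp (lam * h), (-1 : ℂ)] := by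
    have h3 := exp_indep (![lam * h, 0]) (by
      intro i j hij
      have hne : lam * h ≠ 0 := mul_ne_zero hlam hh
      fin_cases i <;> fin_cases j <;> simp_all) (by
      intro i
      fin_cases i
      · exact hla.mul hha
      · exact isAlgebraic_zero)
    rw [Fintype.linearIndependent_iff] at h3 ⊢
    intro g hg
    have h4 := h3 ![g 0, - g 1] (by
      rw [Fin.sum_univ_two] at hg ⊢
      simp only [Matrix.cons_val_zero, Matrix.cons_val_one, Complex.exp_zero] at hg ⊢
      rw [← hg, neg_smul, smul_neg])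
    intro i
    fin_cases i
    · simpa using h4 0
    · simpa using h4 1
  have hli := exp_indep (fun j => lam * b j) (fun i j hij => hb (mul_left_cancel₀ hlam hij))
    (fun j => hla.mul (hba j))
  have h3 := hV 2 3 ![Complex.exp (lam * h), (-1 : ℂ)]
    ![fun j => v * Complex.exp (lam * b j), fun j => v * Complex.exp (lam * (b j + h))] hx (by
    intro i j
    fin_cases i
    · exact h1 j
    · exact h2 j) (by
    intro j
    rw [Fin.sum_univ_two]
    simp only [Matrix.cons_val_zero, Matrix.cons_val_one]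
    rw [mul_add, Complex.exp_add]
    ring) (by
    rw [Fintype.linearIndependent_iff]
    intro g hg
    have h4 := congrFun hg 0
    rw [Finset.sum_apply] at h4
    simp only [Pi.smul_apply, Matrix.cons_val_zero, Pi.zero_apply] at h4
    have h5 : v * ∑ j, g j • Complex.exp (lam * b j) = 0 := by
      rw [Finset.mul_sum, ← h4]
      apply Finset.sum_congr rfl
      intro j _
      rw [mul_smul_comm]
    exact Fintype.linearIndependent_iff.mp hli g ((mul_eq_zero.mp h5).resolve_left hv))
  norm_num at h3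

open Classical in
/-- one term: at most `2 √|A - A|` elements of `A` -/
theorem countE_one (hV : Hyp V) {v lam : ℂ} (hv : v ≠ 0) (hlam : lam ≠ 0)
    (hla : IsAlgebraic ℚ lam) (A : Finset ℂ) (hA : ∀ β ∈ A, IsAlgebraic ℚ β) :
    ((A.filter fun β => v * Complex.exp (lam * β) ∈ V).card : ℝ) ≤ 2 * √((A - A).card) := by
  set S := A.filter fun β => v * Complex.exp (lam * β) ∈ V with hS
  have key : S.card ^ 2 ≤ 4 * (A - A).card := by
    by_cases h2 : 2 ≤ S.card
    · obtain ⟨h, hh, hc⟩ := diff_stepG A S (Finset.filter_subset _ _) h2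
      have h3 : (S.filter fun s => s + h ∈ S).card ≤ 2 := by
        by_contra hlt
        push Not at hlt
        obtain ⟨T, hT, hTc⟩ := Finset.exists_subset_card_eq (Nat.succ_le_of_lt hlt)
        set e : Fin 3 ≃ T := (Finset.equivFinOfCardEq hTc).symm with he
        have hm : ∀ j, (e j : ℂ) ∈ S ∧ (e j : ℂ) + h ∈ S := fun j =>
          ⟨(Finset.mem_filter.mp (hT (e j).2)).1, (Finset.mem_filter.mp (hT (e j).2)).2⟩
        have hSA : ∀ x ∈ S, IsAlgebraic ℚ x := fun x hx => hA x (Finset.mem_filter.mp hx).1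
        have hha : IsAlgebraic ℚ h := by
          have h5 := (hSA _ (hm 0).2).sub (hSA _ (hm 0).1)
          rwa [add_sub_cancel_left] at h5
        refine grid_falseE hV hv hlam hla h hh hha (fun j => (e j : ℂ)) ?_
          (fun j => hSA _ (hm j).1) ?_ ?_
        · intro i j hij
          exact e.injective (Subtype.ext hij)
        · intro j
          exact (Finset.mem_filter.mp (hm j).1).2
        · intro j
          exact (Finset.mem_filter.mp (hm j).2).2
      calc S.card ^ 2 ≤ 2 * (A - A).card * (S.filter fun s => s + h ∈ S).card := hc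
        _ ≤ 2 * (A - A).card * 2 := Nat.mul_le_mul_left _ h3
        _ = 4 * (A - A).card := by ring
    · rcases Nat.eq_zero_or_pos S.card with h0 | h0
      · rw [h0]; simp
      · have h3 : S.card ^ 2 ≤ 1 := by
          have : S.card ≤ 1 := by omega
          calc S.card ^ 2 ≤ 1 ^ 2 := Nat.pow_le_pow_left this 2
            _ = 1 := by norm_num
        have hK : 0 < (A - A).card := by
          obtain ⟨s, hs⟩ := Finset.card_pos.mp h0
          have hs' := (Finset.mem_filter.mp hs).1
          exact Finset.card_pos.mpr ⟨s - s, Finset.sub_mem_sub hs' hs'⟩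
        omega
  have h1 : (S.card : ℝ) ^ 2 ≤ 4 * ((A - A).card : ℝ) := by exact_mod_cast key
  have h2 : (2 * √((A - A).card : ℝ)) ^ 2 = 4 * ((A - A).card : ℝ) := by
    rw [mul_pow, Real.sq_sqrt (Nat.cast_nonneg _)]
    norm_num
  exact (pow_le_pow_iff_left₀ (Nat.cast_nonneg _) (by positivity) two_ne_zero).mp (by rw [h2]; exact h1)

end Pool.Agent.N638.ET
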