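import Pool.Agent.TH160.TowP.CFull

/-!
# Polynomials whose coefficients lie in a space over the algebraic numbers
-/

set_option autoImplicit false

namespace Pool.Agent.N638.ET

open Module Finset Polynomial
open Pool.Agent.W254.Ab (QA mem_QA)
open Pool.Agent.W254.PA (Hyp)
open Pool.Agent.TH160.TowP

variable {Ω : Type} [Field Ω] [CharZero Ω] {V : Submodule (QA Ω) Ω}

/-- the coefficients of `P(X + l)` -/
theorem taylor_coeff_eq (P : Polynomial Ω) (l : Ω) (m : ℕ) : (taylor l P).coeff m =
    ∑ n ∈ Finset.range (P.natDegree + 1), (n.choose m : Ω) * P.coeff n * l ^ (n - m) := by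
  rw [taylor_coeff, hasseDeriv_apply, Polynomial.sum_over_range]
  · rw [eval_finsetSum]
    apply Finset.sum_congr rfl
    intro n _
    rw [eval_monomial]
  · intro n
    rw [mul_zero, map_zero]

theorem mem_taylor {l : Ω} (hl : IsAlgebraic ℚ l) {P : Polynomial Ω} {m : ℕ}
    (h : ∀ n, m < n → P.coeff n ∈ V) : (taylor l P).coeff m - P.coeff m ∈ V := by
  rw [taylor_coeff_eq]
  have key : ∀ s : Finset ℕ, (∑ n ∈ s, (n.choose m : Ω) * P.coeff n * l ^ (n - m)) -
      (if m ∈ s then P.coeff m else 0) ∈ V := by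
    intro s
    rw [← Finset.sum_ite_eq' s m (fun n => P.coeff n)] 
    rw [← Finset.sum_sub_distrib]
    apply V.sum_mem
    intro n _
    rcases lt_trichotomy n m with h1 | h1 | h1
    · rw [Nat.choose_eq_zero_of_lt h1, if_neg (by omega)]
      simp
    · subst h1
      rw [Nat.choose_self, if_pos rfl, Nat.sub_self]
      simp
    · rw [if_neg (by omega), sub_zero]
      have e : (n.choose m : Ω) * P.coeff n * l ^ (n - m) =
          ((n.choose m : Ω) * l ^ (n - m)) * P.coeff n := by ring
      rw [e]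
      exact V_mul ((isAlgebraic_natCast _).mul (hl.pow _)) (h n h1)
  have h1 := key (Finset.range (P.natDegree + 1))
  by_cases hm : m ∈ Finset.range (P.natDegree + 1)
  · rw [if_pos hm] at h1
    exact h1
  · rw [if_neg hm] at h1
    have : P.coeff m = 0 := by
      apply coeff_eq_zero_of_natDegree_lt
      rw [Finset.mem_range] at hm
      omega
    rw [this]
    exact h1

/-- downward induction for the coefficients -/
theorem coeff_ind {P : Polynomial Ω} {k : ℕ}
    (h : ∀ m, k ≤ m → (∀ n, m < n → P.coeff n ∈ V) → P.coeff m ∈ V) :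
    ∀ m, k ≤ m → P.coeff m ∈ V := by
  have key : ∀ d m, k ≤ m → P.natDegree < m + d → P.coeff m ∈ V := by
    intro d
    induction d with
    | zero =>
      intro m _ hm
      rw [coeff_eq_zero_of_natDegree_lt (by omega)]
      exact V.zero_mem
    | succ d ih =>
      intro m hkm hm
      apply h m hkm
      intro n hn
      exact ih n (by omega) (by omega)
  intro m hm
  exact key (P.natDegree + 1) m hm (by omega)

/-- different multipliers -/
theorem coeff_of_kop {ρ ρ' l : Ω} (hρ : IsAlgebraic ℚ ρ) (hρ' : IsAlgebraic ℚ ρ') (hne : ρ ≠ ρ')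
    (hl : IsAlgebraic ℚ l) {P : Polynomial Ω} (h : ∀ m, (kop ρ ρ' l P).coeff m ∈ V) :
    ∀ m, P.coeff m ∈ V := by
  intro m
  refine coeff_ind (k := 0) ?_ m (Nat.zero_le _)
  intro m _ hm
  have h1 := h m
  rw [kop_coeff] at h1
  have h2 := V_mul hρ (mem_taylor hl hm)
  have h3 := V.sub_mem h1 h2
  have e : ρ * (taylor l P).coeff m - ρ' * P.coeff m - ρ * ((taylor l P).coeff m - P.coeff m) =
      (ρ - ρ') * P.coeff m := by ring
  rw [e] at h3
  exact mul_mem_iff (hρ.sub hρ') (sub_ne_zero.mpr hne) h3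

/-- equal multipliers -/
theorem coeff_of_diff {l : Ω} (hl : IsAlgebraic ℚ l) (hl0 : l ≠ 0) {P : Polynomial Ω}
    (h : ∀ m, (kop 1 1 l P).coeff m ∈ V) : ∀ m, 1 ≤ m → P.coeff m ∈ V := by
  refine coeff_ind ?_
  intro m hm1 hm
  obtain ⟨k, rfl⟩ : ∃ k, m = k + 1 := ⟨m - 1, by omega⟩
  -- split off the monomial of degree `k + 1`
  set Q : Polynomial Ω := P - monomial (k + 1) (P.coeff (k + 1)) with hQ
  have hQV : ∀ n, k < n → Q.coeff n ∈ V := by
    intro n hn
    rw [hQ, coeff_sub, coeff_monomial]
    by_cases hk : k + 1 = n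
    · rw [if_pos hk, ← hk, sub_self]; exact V.zero_mem
    · rw [if_neg hk, sub_zero]
      exact hm n (by omega)
  have h1 := h k
  rw [kop_coeff, one_mul, one_mul] at h1
  have h2 := mem_taylor hl hQV
  have e1 : (taylor l Q).coeff k = (taylor l P).coeff k - (k + 1) * l * P.coeff (k + 1) := by
    rw [hQ, map_sub, coeff_sub]
    congr 1
    have h3 := taylor_sub' (d := k) (P := monomial (k + 1) (P.coeff (k + 1))) (fun j hj => by
      rw [coeff_monomial, if_neg (by omega)]) l
    rw [coeff_monomial, coeff_monomial, if_neg (by omega), if_pos rfl, sub_zero] at h3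
    exact h3
  have e2 : Q.coeff k = P.coeff k := by
    rw [hQ, coeff_sub, coeff_monomial, if_neg (by omega), sub_zero]
  rw [e1, e2] at h2
  have h3 := V.sub_mem h1 h2
  have e : (taylor l P).coeff k - P.coeff k -
      ((taylor l P).coeff k - (k + 1) * l * P.coeff (k + 1) - P.coeff k) =
      ((k + 1 : ℕ) : Ω) * l * P.coeff (k + 1) := by push_cast; ring
  rw [e] at h3
  exact mul_mem_iff ((isAlgebraic_natCast _).mul hl)
    (mul_ne_zero (by exact_mod_cast Nat.succ_ne_zero k) hl0) h3

end Pool.Agent.N638.ET
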