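import Mathlib

/-!
# Hilbert cubes in dense sets of integers
-/

set_option autoImplicit false

namespace Pool.Agent.N638.ET

open Finset

/-- pigeonhole for differences -/
theorem diff_step (N : ℕ) (M : ℤ) (S : Finset ℤ) (hS : S ⊆ Ioc M (M + N)) (h2 : 2 ≤ S.card) :
    ∃ h : ℕ, 0 < h ∧ S.card ^ 2 ≤ 4 * N * (S.filter fun s => s + (h : ℤ) ∈ S).card := by
  classical
  by_contra hcon
  push Not at hcon
  have hb : ∀ s ∈ S, M < s ∧ s ≤ M + N := fun s hs => Finset.mem_Ioc.mp (hS hs)
  have hmap : ∀ p ∈ S.offDiag, (p.2 - p.1).natAbs ∈ Finset.Ioo 0 N := by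
    intro p hp
    rw [Finset.mem_offDiag] at hp
    obtain ⟨ha, hb', hne⟩ := hp
    have h1 := hb _ ha
    have h3 := hb _ hb'
    rw [Finset.mem_Ioo]
    omega
  have h3 := Finset.card_eq_sum_card_fiberwise (f := fun p : ℤ × ℤ => (p.2 - p.1).natAbs) hmap
  have h4 : ∀ h ∈ Finset.Ioo 0 N, (S.offDiag.filter fun p => (p.2 - p.1).natAbs = h).card ≤
      2 * (S.filter fun s => s + (h : ℤ) ∈ S).card := by
    intro h _
    have hsub : (S.offDiag.filter fun p => (p.2 - p.1).natAbs = h) ⊆
        ((S.filter fun s => s + (h : ℤ) ∈ S).image fun s => (s, s + (h : ℤ))) ∪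
        ((S.filter fun s => s + (h : ℤ) ∈ S).image fun s => (s + (h : ℤ), s)) := by
      intro p hp
      rw [Finset.mem_filter, Finset.mem_offDiag] at hp
      obtain ⟨⟨ha, hb', hne⟩, hd⟩ := hp
      rw [Finset.mem_union, Finset.mem_image, Finset.mem_image]
      rcases le_total p.1 p.2 with hle | hle
      · left
        have e : p.1 + (h : ℤ) = p.2 := by omega
        exact ⟨p.1, Finset.mem_filter.mpr ⟨ha, by rw [e]; exact hb'⟩, by rw [e]⟩
      · right
        have e : p.2 + (h : ℤ) = p.1 := by omega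
        exact ⟨p.2, Finset.mem_filter.mpr ⟨hb', by rw [e]; exact ha⟩, by rw [e]⟩
    refine (Finset.card_le_card hsub).trans ((Finset.card_union_le _ _).trans ?_)
    have h5 := Finset.card_image_le (s := S.filter fun s => s + (h : ℤ) ∈ S)
      (f := fun s => (s, s + (h : ℤ)))
    have h6 := Finset.card_image_le (s := S.filter fun s => s + (h : ℤ) ∈ S)
      (f := fun s => (s + (h : ℤ), s))
    omega
  have hN : 0 < N := by
    obtain ⟨s, hs⟩ : S.Nonempty := Finset.card_pos.mp (by omega)
    have := hb s hs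
    omega
  have h5 : 2 * N * S.offDiag.card ≤ (N - 1) * S.card ^ 2 := by
    rw [h3, Finset.mul_sum]
    calc ∑ h ∈ Finset.Ioo 0 N, 2 * N * (S.offDiag.filter fun p => (p.2 - p.1).natAbs = h).card
        ≤ ∑ _h ∈ Finset.Ioo 0 N, S.card ^ 2 := by
          apply Finset.sum_le_sum
          intro h hh
          have h6 := h4 h hh
          have h7 := hcon h (Finset.mem_Ioo.mp hh).1
          calc 2 * N * (S.offDiag.filter fun p => (p.2 - p.1).natAbs = h).card
              ≤ 2 * N * (2 * (S.filter fun s => s + (h : ℤ) ∈ S).card) :=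
                Nat.mul_le_mul_left _ h6
            _ = 4 * N * (S.filter fun s => s + (h : ℤ) ∈ S).card := by ring
            _ ≤ S.card ^ 2 := h7.le
      _ = (N - 1) * S.card ^ 2 := by
          rw [Finset.sum_const, Nat.card_Ioo, smul_eq_mul]
          congr 1
  rw [Finset.offDiag_card] at h5
  obtain ⟨n, rfl⟩ : ∃ n, N = n + 1 := ⟨N - 1, by omega⟩
  obtain ⟨c, hc⟩ : ∃ c, S.card = c + 2 := ⟨S.card - 2, by omega⟩
  rw [hc] at h5
  have e1 : (c + 2) * (c + 2) - (c + 2) = (c + 2) * (c + 1) := by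
    rw [Nat.sub_eq_iff_eq_add (by nlinarith)]
    ring
  rw [e1, Nat.add_sub_cancel] at h5
  have h6 : n * (c + 2) ^ 2 + n * (c + 2) * c = 2 * n * ((c + 2) * (c + 1)) := by ring
  have h7 : 2 * (n + 1) * ((c + 2) * (c + 1)) =
      2 * n * ((c + 2) * (c + 1)) + 2 * ((c + 2) * (c + 1)) := by ring
  have h8 : 0 < (c + 2) * (c + 1) := by positivity
  have h9 : 0 ≤ n * (c + 2) * c := Nat.zero_le _
  linarith

/-- **Hilbert cubes.** -/
theorem hilbert_cube : ∀ (d N : ℕ) (M : ℤ) (S : Finset ℤ), S ⊆ Ioc M (M + N) →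
    (4 * N) ^ (2 ^ d - 1) < S.card ^ (2 ^ d) →
    ∃ (k0 : ℤ) (h : Fin d → ℕ), (∀ i, 0 < h i) ∧
      ∀ T : Finset (Fin d), k0 + ∑ i ∈ T, (h i : ℤ) ∈ S := by
  classical
  intro d
  induction d with
  | zero =>
    intro N M S _ h
    rw [pow_zero, Nat.sub_self, pow_zero, pow_one] at h
    obtain ⟨s, hs⟩ : S.Nonempty := Finset.card_pos.mp (by omega)
    refine ⟨s, fun _ => 1, fun _ => Nat.one_pos, fun T => ?_⟩
    rw [Finset.eq_empty_of_isEmpty T, Finset.sum_empty, add_zero]
    exact hs
  | succ d ih =>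
    intro N M S hS h
    have hN : 0 < N := by
      rcases Nat.eq_zero_or_pos N with h0 | h0
      · subst h0
        have : S = ∅ := by
          rw [← Finset.subset_empty]
          refine hS.trans ?_
          simp
        rw [this, Finset.card_empty, zero_pow (by positivity)] at h
        exact absurd h (Nat.not_lt_zero _)
      · exact h0
    have h2 : 2 ≤ S.card := by
      by_contra hlt
      have h1 : S.card ^ (2 ^ (d + 1)) ≤ 1 := Nat.pow_le_one_iff (by positivity) |>.mpr (by omega)
      have h3 : 0 < (4 * N) ^ (2 ^ (d + 1) - 1) := by positivity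
      omega
    obtain ⟨g, hg0, hg⟩ := diff_step N M S hS h2
    set S' := S.filter fun s => s + (g : ℤ) ∈ S with hS'
    have hkey : (4 * N) ^ (2 ^ d - 1) < S'.card ^ (2 ^ d) := by
      have e1 : 2 ^ (d + 1) - 1 = 2 ^ d + (2 ^ d - 1) := by
        have : 0 < 2 ^ d := by positivity
        rw [pow_succ]
        omega
      have e2 : S.card ^ (2 ^ (d + 1)) = (S.card ^ 2) ^ (2 ^ d) := by
        rw [← pow_mul, pow_succ]
        congr 1
        ring
      rw [e1, pow_add, e2] at h
      have h3 : (S.card ^ 2) ^ (2 ^ d) ≤ (4 * N) ^ (2 ^ d) * S'.card ^ (2 ^ d) := by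
        rw [← mul_pow]
        exact Nat.pow_le_pow_left hg _
      exact Nat.lt_of_mul_lt_mul_left (h.trans_le h3)
    obtain ⟨k0, h', hh', hT⟩ := ih N M S' ((Finset.filter_subset _ _).trans hS) hkey
    refine ⟨k0, Fin.cons g h', ?_, ?_⟩
    · intro i
      refine Fin.cases ?_ (fun j => ?_) i
      · rw [Fin.cons_zero]; exact hg0
      · rw [Fin.cons_succ]; exact hh' j
    · intro T
      have h3 := hT (Finset.univ.filter fun i => Fin.succ i ∈ T)
      rw [hS', Finset.mem_filter] at h3
      have e : ∑ i ∈ T, ((Fin.cons g h' : Fin (d + 1) → ℕ) i : ℤ) =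
          (if (0 : Fin (d + 1)) ∈ T then (g : ℤ) else 0) +
            ∑ i ∈ Finset.univ.filter (fun i => Fin.succ i ∈ T), (h' i : ℤ) := by
        rw [← Finset.sum_filter_add_sum_filter_not T (fun _ => True)]
        rw [Finset.sum_filter (p := fun i : Fin d => Fin.succ i ∈ T)]
        have : ∑ i ∈ T, ((Fin.cons g h' : Fin (d + 1) → ℕ) i : ℤ) =
            ∑ i : Fin (d + 1), if i ∈ T then ((Fin.cons g h' : Fin (d + 1) → ℕ) i : ℤ) else 0 := by
          rw [← Finset.sum_filter]
          congr 1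
          ext i
          simp
        simp only [Finset.filter_true, not_true_eq_false, Finset.filter_false, Finset.sum_empty,
          add_zero]
        rw [this, Fin.sum_univ_succ]
        simp only [Fin.cons_zero, Fin.cons_succ]
      rw [e]
      split_ifs
      · have := h3.2
        convert this using 1
        ring
      · rw [zero_add]
        exact h3.1

end Pool.Agent.N638.ET
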