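import Pool.Agent.N638.ET.Cube
import Pool.Agent.N638.ET.Hilbert

/-!
# Exponential polynomials with complex frequencies
-/

set_option autoImplicit false

namespace Pool.Agent.N638.ET

open Module Finset Polynomial
open Pool.Agent.W254.Ab (QA mem_QA)
open Pool.Agent.W254.PA (Hyp)
open Pool.Agent.TH160.TowP

/-- `∑ exp(lam_i x) B_i(x)` -/
noncomputable def GG {m : ℕ} (lam : Fin m → ℂ) (B : Fin m → ℂ[X]) (x : ℂ) : ℂ :=
  ∑ i, Complex.exp (lam i * x) * (B i).eval x

/-- the trivial case -/
def Triv (V : Submodule (QA ℂ) ℂ) {m : ℕ} (lam : Fin m → ℂ) (B : Fin m → ℂ[X]) : Prop :=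
  ∀ i, B i ≠ 0 → IsAlgebraic ℚ (Complex.exp (lam i)) ∧ ∀ n, (B i).coeff n ∈ V

theorem scaled {m : ℕ} (lam : Fin m → ℂ) (B : Fin m → ℂ[X]) (q : ℕ) (k : ℤ) :
    GG lam B ((k : ℂ) / q) = FF (fun i => Complex.exp (lam i / q))
      (fun i => (B i).comp (C (1 / (q : ℂ)) * X)) k := by
  unfold GG FF
  apply Finset.sum_congr rfl
  intro i _
  congr 1
  · rw [← Complex.exp_int_mul]
    congr 1
    ring
  · rw [eval_comp, eval_mul, eval_C, eval_X]
    congr 1
    ring

theorem exp_rat {z : ℂ} (hz : IsAlgebraic ℚ (Complex.exp z)) (r : ℚ) :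
    IsAlgebraic ℚ (Complex.exp (z * r)) := by
  have h1 : Complex.exp (z * r) ^ r.den = Complex.exp z ^ r.num := by
    rw [← Complex.exp_nat_mul, ← Complex.exp_int_mul]
    congr 1
    have hd : (r.den : ℂ) ≠ 0 := by exact_mod_cast r.den_nz
    have h2 : (r : ℂ) = (r.num : ℂ) / (r.den : ℂ) := Rat.cast_def r
    rw [h2]
    field_simp
  refine IsAlgebraic.of_pow r.den_pos ?_
  rw [h1]
  rcases Int.eq_nat_or_neg r.num with ⟨n, hn | hn⟩
  · rw [hn, zpow_natCast]
    exact hz.pow _
  · rw [hn, zpow_neg, zpow_natCast]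
    exact (hz.pow _).inv

theorem triv_mem {V : Submodule (QA ℂ) ℂ} {m : ℕ} {lam : Fin m → ℂ} {B : Fin m → ℂ[X]}
    (h : Triv V lam B) (r : ℚ) : GG lam B r ∈ V := by
  apply V.sum_mem
  intro i _
  by_cases hB : B i = 0
  · rw [hB, eval_zero, mul_zero]
    exact V.zero_mem
  · obtain ⟨h1, h2⟩ := h i hB
    refine V_mul (exp_rat h1 r) ?_
    rw [eval_eq_sum_range]
    apply V.sum_mem
    intro n _
    rw [mul_comm]
    refine V_mul (IsAlgebraic.pow ?_ n) (h2 n)
    have : ((r : ℚ) : ℂ) = algebraMap ℚ ℂ r := by simp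
    rw [this]
    exact isAlgebraic_algebraMap r

theorem comp_coeff (P : ℂ[X]) (c : ℂ) (n : ℕ) : (P.comp (C c * X)).coeff n = P.coeff n * c ^ n :=
  comp_C_mul_X_coeff

open Classical in
/-- **The counting theorem.** -/
theorem count_main {V : Submodule (QA ℂ) ℂ} (hV : Hyp V) (m D : ℕ) : ∃ δ : ℝ, 0 < δ ∧
    ∀ lam : Fin m → ℂ, (∀ i j, i ≠ j → ∀ r : ℚ, lam i - lam j ≠ r * (Real.pi * Complex.I)) →
    ∀ B : Fin m → ℂ[X], (∀ i, Z D (B i)) → ¬ Triv V lam B →
    ∀ (q : ℕ) (M : ℤ) (N : ℕ), 0 < q → 0 < N →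
      (((Finset.Ioc M (M + N)).filter fun k : ℤ => GG lam B ((k : ℂ) / q) ∈ V).card : ℝ) ≤
        (4 * N : ℝ) ^ (1 - δ) := by
  set d : ℕ := NN m D + m * D + D with hd
  refine ⟨1 / 2 ^ d, by positivity, ?_⟩
  intro lam hlam B hB hnt q M N hq hN
  by_contra hcon
  push Not at hcon
  set S := (Finset.Ioc M (M + N)).filter fun k : ℤ => GG lam B ((k : ℂ) / q) ∈ V with hS
  have hqC : (q : ℂ) ≠ 0 := by exact_mod_cast hq.ne'
  have h4N : (0 : ℝ) < 4 * N := by positivity
  have h1 : (4 * N) ^ (2 ^ d - 1) < S.card ^ (2 ^ d) := by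
    have h2 : ((4 * N : ℝ) ^ (1 - 1 / (2 : ℝ) ^ d)) ^ (2 ^ d) < (S.card : ℝ) ^ (2 ^ d) :=
      pow_lt_pow_left₀ hcon (by positivity) (by positivity)
    rw [← Real.rpow_natCast, ← Real.rpow_mul h4N.le] at h2
    have h3 : (1 - 1 / (2 : ℝ) ^ d) * ((2 ^ d : ℕ) : ℝ) = ((2 ^ d - 1 : ℕ) : ℝ) := by
      rw [Nat.cast_sub (Nat.one_le_two_pow), Nat.cast_pow]
      push_cast
      field_simp
    rw [h3, Real.rpow_natCast] at h2
    exact_mod_cast h2
  obtain ⟨k0, h, hh, hT⟩ := hilbert_cube d N M S (Finset.filter_subset _ _) h1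
  set τ : Fin m → ℂ := fun i => Complex.exp (lam i / q) with hτ
  have key := cube_main hV D τ (fun i => Complex.exp_ne_zero _) (by
    intro i j hij n hn hcon
    rw [hτ] at hcon
    simp only at hcon
    rw [← Complex.exp_nat_mul, ← Complex.exp_nat_mul, Complex.exp_eq_exp_iff_exists_int] at hcon
    obtain ⟨s, hs⟩ := hcon
    have hnC : (n : ℂ) ≠ 0 := by exact_mod_cast hn.ne'
    refine hlam i j hij (2 * s * q / n) ?_
    push_cast
    field_simp at hs ⊢
    linear_combination hs) (fun i => (B i).comp (C (1 / (q : ℂ)) * X)) (by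
    intro i n hn
    rw [comp_coeff, hB i n hn, zero_mul]) (d := d) le_rfl k0 h hh (by
    intro T
    have h2 := (Finset.mem_filter.mp (hT T)).2
    rwa [scaled] at h2)
  apply hnt
  intro i hi
  have hc0 : (1 / (q : ℂ)) ≠ 0 := one_div_ne_zero hqC
  have hal : IsAlgebraic ℚ (τ i) := by
    by_contra hna
    have h2 := (key i).2 hna
    apply hi
    ext n
    have h3 := congrArg (fun p : ℂ[X] => p.coeff n) h2
    simp only [comp_coeff, coeff_zero] at h3
    rw [coeff_zero]
    exact (mul_eq_zero.mp h3).resolve_right (pow_ne_zero _ hc0)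
  refine ⟨?_, ?_⟩
  · have h2 : Complex.exp (lam i) = τ i ^ q := by
      rw [hτ]
      simp only
      rw [← Complex.exp_nat_mul]
      congr 1
      field_simp
    rw [h2]
    exact hal.pow _
  · intro n
    have h2 := (key i).1 hal n
    rw [comp_coeff, mul_comm] at h2
    refine mul_mem_iff (IsAlgebraic.pow ?_ n) (pow_ne_zero _ hc0) h2
    rw [one_div]
    exact (isAlgebraic_natCast q).inv

/-- powers of a transcendental number are independent over the algebraic numbers -/
theorem pow_indep {Ω : Type} [Field Ω] [CharZero Ω] {τ : Ω} (hτ : Transcendental ℚ τ) {n : ℕ}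
    (b : Fin n → ℕ) (hb : Function.Injective b) : LinearIndependent (QA Ω) fun j => τ ^ b j := by
  rw [Fintype.linearIndependent_iff]
  intro g hg j
  set p : Polynomial (QA Ω) := ∑ i, monomial (b i) (g i) with hp
  have hev : aeval τ p = 0 := by
    rw [hp, map_sum, ← hg]
    apply Finset.sum_congr rfl
    intro i _
    rw [aeval_monomial, Algebra.smul_def]
  have hp0 : p = 0 := by
    by_contra hne
    have h1 : IsAlgebraic (QA Ω) τ := ⟨p, hne, hev⟩
    have : Algebra.IsAlgebraic ℚ (QA Ω) := algebraicClosure.isAlgebraic ℚ Ω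
    exact hτ (h1.restrictScalars ℚ)
  have h1 := congrArg (fun q => Polynomial.coeff q (b j)) hp0
  simp only [hp, finsetSum_coeff, coeff_monomial, coeff_zero] at h1
  rw [Finset.sum_eq_single j] at h1
  · simpa using h1
  · intro i _ hij
    rw [if_neg (fun h => hij (hb h))]
  · intro h
    exact absurd (Finset.mem_univ _) h

/-- no `2 × 3` grid -/
theorem grid_false {Ω : Type} [Field Ω] [CharZero Ω] {V : Submodule (QA Ω) Ω} (hV : Hyp V)
    {v τ : Ω} (hv : v ≠ 0) (hτ : Transcendental ℚ τ) (h : ℕ) (hh : 0 < h) (b : Fin 3 → ℕ)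
    (hb : Function.Injective b) (h1 : ∀ j, v * τ ^ b j ∈ V) (h2 : ∀ j, v * τ ^ (b j + h) ∈ V) :
    False := by
  have hx : LinearIndependent (QA Ω) ![τ ^ h, (-1 : Ω)] := by
    have h3 := pow_indep hτ (![h, 0]) (by
      intro i j hij
      fin_cases i <;> fin_cases j <;> simp_all)
    rw [Fintype.linearIndependent_iff] at h3 ⊢
    intro g hg
    have h4 := h3 ![g 0, - g 1] (by
      rw [Fin.sum_univ_two] at hg ⊢
      simp only [Matrix.cons_val_zero, Matrix.cons_val_one, pow_zero] at hg ⊢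
      rw [← hg, neg_smul, smul_neg])
    intro i
    fin_cases i
    · simpa using h4 0
    · simpa using h4 1
  have h3 := hV 2 3 ![τ ^ h, (-1 : Ω)] ![fun j => v * τ ^ b j, fun j => v * τ ^ (b j + h)] hx (by
    intro i j
    fin_cases i
    · exact h1 j
    · exact h2 j) (by
    intro j
    rw [Fin.sum_univ_two]
    simp only [Matrix.cons_val_zero, Matrix.cons_val_one]
    rw [pow_add]
    ring) (by
    rw [Fintype.linearIndependent_iff]
    intro g hg
    have h4 := congrFun hg 0
    rw [Finset.sum_apply] at h4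
    simp only [Pi.smul_apply, Matrix.cons_val_zero, Pi.zero_apply] at h4
    have h5 : v * ∑ j, g j • τ ^ b j = 0 := by
      rw [Finset.mul_sum, ← h4]
      apply Finset.sum_congr rfl
      intro j _
      rw [mul_smul_comm]
    exact Fintype.linearIndependent_iff.mp (pow_indep hτ b hb) g
      ((mul_eq_zero.mp h5).resolve_left hv))
  norm_num at h3

open Classical in
/-- one term: at most `√(8 N)` of `N` consecutive integers -/
theorem count_one {V : Submodule (QA ℂ) ℂ} (hV : Hyp V) {v τ : ℂ} (hv : v ≠ 0)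
    (hτ : Transcendental ℚ τ) (M : ℤ) (N : ℕ) (hN : 0 < N) :
    (((Finset.Ioc M (M + N)).filter fun k : ℤ => v * τ ^ k ∈ V).card : ℝ) ≤ √(8 * N) := by
  set S := (Finset.Ioc M (M + N)).filter fun k : ℤ => v * τ ^ k ∈ V with hS
  have hτ0 : τ ≠ 0 := fun h => hτ (by rw [h]; exact isAlgebraic_zero)
  have key : S.card ^ 2 ≤ 8 * N := by
    by_cases h2 : 2 ≤ S.card
    · obtain ⟨h, hh, hc⟩ := diff_step N M S (Finset.filter_subset _ _) h2
      have h3 : (S.filter fun s => s + (h : ℤ) ∈ S).card ≤ 2 := by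
        by_contra hlt
        push Not at hlt
        obtain ⟨T, hT, hTc⟩ := Finset.exists_subset_card_eq (Nat.succ_le_of_lt hlt)
        set e : Fin 3 ↪o ℤ := T.orderEmbOfFin hTc with he
        have hm : ∀ j, e j ∈ S ∧ e j + (h : ℤ) ∈ S := fun j => by
          have := hT (Finset.orderEmbOfFin_mem T hTc j)
          exact ⟨(Finset.mem_filter.mp this).1, (Finset.mem_filter.mp this).2⟩
        have hgt : ∀ j, M < e j := fun j =>
          (Finset.mem_Ioc.mp (Finset.mem_filter.mp (hm j).1).1).1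
        have hexp : ∀ j (n : ℕ), v * τ ^ (e j + (n : ℤ)) =
            (v * τ ^ M) * τ ^ ((e j - M).toNat + n) := by
          intro j n
          have h5 : e j + (n : ℤ) = M + (((e j - M).toNat + n : ℕ) : ℤ) := by
            have := hgt j
            push_cast
            omega
          rw [h5, zpow_add₀ hτ0, zpow_natCast]
          ring
        refine grid_false hV (v := v * τ ^ M) (mul_ne_zero hv (zpow_ne_zero _ hτ0)) hτ h hh
          (fun j => (e j - M).toNat) ?_ ?_ ?_
        · intro i j hij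
          apply e.injective
          have h5 := hgt i
          have h6 := hgt j
          simp only at hij
          omega
        · intro j
          have h5 := (Finset.mem_filter.mp (hm j).1).2
          have h6 := hexp j 0
          simp only [Nat.cast_zero, add_zero] at h6
          rwa [← h6]
        · intro j
          have h5 := (Finset.mem_filter.mp (hm j).2).2
          rwa [hexp j h] at h5
      calc S.card ^ 2 ≤ 4 * N * (S.filter fun s => s + (h : ℤ) ∈ S).card := hc
        _ ≤ 4 * N * 2 := Nat.mul_le_mul_left _ h3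
        _ = 8 * N := by ring
    · have h3 : S.card ^ 2 ≤ 1 := by
        have : S.card ≤ 1 := by omega
        calc S.card ^ 2 ≤ 1 ^ 2 := Nat.pow_le_pow_left this 2
          _ = 1 := by norm_num
      omega
  apply Real.le_sqrt_of_sq_le
  exact_mod_cast key

end Pool.Agent.N638.ET
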