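import Pool.Agent.N638.ET.Alg

/-!
# Exponential polynomials on cubes of integers
-/

set_option autoImplicit false

namespace Pool.Agent.N638.ET

open Module Finset Polynomial
open Pool.Agent.W254.Ab (QA mem_QA)
open Pool.Agent.W254.PA (Hyp)
open Pool.Agent.TH160.TowP

variable {Ω : Type} [Field Ω] [CharZero Ω] {V : Submodule (QA Ω) Ω}

/-- the exponential polynomial `∑ τ_i ^ k B_i(k)` -/
noncomputable def FF {m : ℕ} (τ : Fin m → Ω) (B : Fin m → Polynomial Ω) (k : ℤ) : Ω :=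
  ∑ i, τ i ^ k * (B i).eval (k : Ω)

theorem zpow_sum {ι : Type} {x : Ω} (hx : x ≠ 0) (k0 : ℤ) (h : ι → ℕ) (T : Finset ι) :
    x ^ (k0 + ∑ i ∈ T, (h i : ℤ)) = x ^ k0 * ∏ i ∈ T, x ^ h i := by
  classical
  rw [zpow_add₀ hx]
  congr 1
  induction T using Finset.induction_on with
  | empty => simp
  | insert a s ha ih =>
    rw [Finset.sum_insert ha, Finset.prod_insert ha, zpow_add₀ hx, ih, zpow_natCast]

theorem cube_main (hV : Hyp V) {m : ℕ} (D : ℕ) (τ : Fin m → Ω) (hτ : ∀ i, τ i ≠ 0)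
    (hnd : ∀ i j, i ≠ j → ∀ n : ℕ, 0 < n → τ i ^ n ≠ τ j ^ n) (B : Fin m → Polynomial Ω)
    (hB : ∀ i, Z D (B i)) {d : ℕ} (hd : NN m D + m * D + D ≤ d) (k0 : ℤ) (h : Fin d → ℕ)
    (hh : ∀ i, 0 < h i)
    (hval : ∀ T : Finset (Fin d), FF τ B (k0 + ∑ i ∈ T, (h i : ℤ)) ∈ V) :
    ∀ i, (IsAlgebraic ℚ (τ i) → ∀ n, (B i).coeff n ∈ V) ∧ (¬ IsAlgebraic ℚ (τ i) → B i = 0) := by
  classical
  set al : Fin m → Prop := fun i => IsAlgebraic ℚ (τ i) with hal
  set t : Fin m → Fin d → Ω := fun k i => τ k ^ h i with ht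
  set l : Fin d → Ω := fun i => (h i : Ω) with hl
  set Y0 : Ω := (k0 : Ω) with hY0
  set χ0 : Fin m → Ω := fun k => τ k ^ k0 with hχ0
  have hχ0' : ∀ k, χ0 k ≠ 0 := fun k => zpow_ne_zero _ (hτ k)
  have htr : ∀ k, ¬ al k → ∀ i, Transcendental ℚ (t k i) := fun k hk i hi =>
    hk (IsAlgebraic.of_pow (hh i) hi)
  have htne : ∀ k k', k ≠ k' → ∀ i, t k i ≠ t k' i := fun k k' hk i => hnd k k' hk _ (hh i)
  have hl0 : ∀ i, l i ≠ 0 := fun i => Nat.cast_ne_zero.mpr (hh i).ne'
  have hla : ∀ i, IsAlgebraic ℚ (l i) := fun i => isAlgebraic_natCast _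
  have hY0a : IsAlgebraic ℚ Y0 := isAlgebraic_intCast _
  have hta : ∀ k, al k → ∀ i, IsAlgebraic ℚ (t k i) := fun k hk i => hk.pow _
  have ht0 : ∀ k i, t k i ≠ 0 := fun k i => pow_ne_zero _ (hτ k)
  have hχa : ∀ k, al k → IsAlgebraic ℚ (χ0 k) := by
    intro k hk
    rcases Int.eq_nat_or_neg k0 with ⟨n, hn | hn⟩
    · rw [hχ0, hn]
      simp only [zpow_natCast]
      exact hk.pow _
    · rw [hχ0, hn]
      simp only [zpow_neg, zpow_natCast]
      exact (hk.pow _).inv
  have hv : ∀ T : Finset (Fin d),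
      E (fun k : {k // ¬ al k} => χ0 k) (fun (k : {k // ¬ al k}) i => t k i) l Y0
        (fun k => B k) T +
      E (fun k : {k // al k} => χ0 k) (fun (k : {k // al k}) i => t k i) l Y0
        (fun k => B k) T ∈ V := by
    intro T
    have h1 := hval T
    unfold FF at h1
    have e1 : ((k0 + ∑ i ∈ T, (h i : ℤ) : ℤ) : Ω) = Y0 + ∑ i ∈ T, l i := by
      push_cast
      rfl
    have e2 : ∀ k, τ k ^ (k0 + ∑ i ∈ T, (h i : ℤ)) = χ0 k * ∏ i ∈ T, t k i :=
      fun k => zpow_sum (hτ k) k0 h T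
    simp only [e2] at h1
    rw [e1, ← Fintype.sum_subtype_add_sum_subtype al] at h1
    unfold E
    rw [add_comm]
    exact h1
  have hcard : ∀ (P : Fin m → Prop) [Fintype {k // P k}], Fintype.card {k // P k} ≤ m := by
    intro P _
    have := Fintype.card_le_of_injective (Subtype.val : {k // P k} → Fin m) Subtype.val_injective
    rwa [Fintype.card_fin] at this
  have hG : (Finset.univ : Finset (Fin d)).card = d := by rw [Finset.card_univ, Fintype.card_fin]
  have hmain : ∀ i, ¬ al i → B i = 0 := by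
    intro i hi
    refine part1G hV (fun (k : {k // ¬ al k}) i => t k i) l (fun k : {k // ¬ al k} => χ0 k) Y0 D
      (fun k : {k // al k} => χ0 k) (fun (k : {k // al k}) i => t k i)
      (∑ _j : {k // al k}, D) Finset.univ (fun _ => D) (fun k => B k) (fun k => B k) rfl
      (fun j => hB j)
      (fun j => hB j) ?_ (fun k i _ => htr k k.2 i)
      (fun k k' hk i _ => htne k k' (fun hh => hk (Subtype.ext hh)) i) (fun i _ => hl0 i)
      (fun k => hχ0' k)
      (fun k i _ => hta k k.2 i) (fun T _ => hv T) ⟨i, hi⟩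
    have h1 : ∑ _j : {k // al k}, D ≤ m * D := by
      rw [Finset.sum_const, smul_eq_mul, Finset.card_univ]
      exact Nat.mul_le_mul_right _ (hcard al)
    rw [hG]
    refine le_trans (Nat.add_le_add (NN_mono (hcard _)) h1) ?_
    omega
  intro j0
  refine ⟨fun hj0a => ?_, hmain j0⟩
  refine part2Z l (fun k : {k // al k} => χ0 k) (fun (k : {k // al k}) i => t k i) Y0
    ⟨j0, hj0a⟩ D (hχa j0 hj0a) (hχ0' j0) hY0a
    (∑ j ∈ (Finset.univ : Finset {k // al k}).erase ⟨j0, hj0a⟩, D) Finset.univ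
    (fun _ => D) (fun k => B k) rfl (fun j _ => hB j) (hB j0) ?_ (fun i _ => hla i)
    (fun i _ => hl0 i)
    (fun k i _ => hta k k.2 i) (fun i _ => ht0 j0 i) ?_ ?_
  · have h1 : ∑ j ∈ (Finset.univ : Finset {k // al k}).erase ⟨j0, hj0a⟩, D ≤ m * D := by
      rw [Finset.sum_const, smul_eq_mul]
      apply Nat.mul_le_mul_right
      refine (Finset.card_le_card (Finset.erase_subset _ _)).trans ?_
      rw [Finset.card_univ]
      exact hcard al
    rw [hG]
    omega
  · intro j hj i _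
    exact htne j0 j (fun hh => hj (Subtype.ext hh.symm)) i
  · intro T _
    have h1 := hv T
    have h2 : E (fun k : {k // ¬ al k} => χ0 k) (fun (k : {k // ¬ al k}) i => t k i) l Y0
        (fun k => B k) T = 0 := by
      unfold E
      apply Finset.sum_eq_zero
      intro k _
      simp only [hmain k k.2, eval_zero, mul_zero]
    rw [h2, zero_add] at h1
    exact h1

end Pool.Agent.N638.ET
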